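import Pool.Agent.Helper76_PP.Abs
import Pool.Agent.Helper74_PP.Loc

/-!
# Squad PP, part J: LFT, lifting of idempotents modulo `J₁ C`
-/

set_option linter.unusedSectionVars false

noncomputable section

namespace Pool.Agent.PP.H76

open Pool.Agent.PP Pool.Agent.PP.J74

variable {F X : Type} [Field F] [Group X] [Finite X] {Y : Subgroup X} {f : X → F}

/-- the cut to a subgroup -/
def cutL (F : Type) [Field F] (M : Subgroup X) : (X → F) →ₗ[F] (X → F) where
  toFun u := open Classical in fun h => if h ∈ M then u h else 0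
  map_add' u v := by
    funext h
    by_cases hh : h ∈ M <;> simp [hh]
  map_smul' c u := by
    funext h
    by_cases hh : h ∈ M <;> simp [hh]

theorem cutL_mem {M : Subgroup X} {h : X} (hh : h ∈ M) (u : X → F) : cutL F M u h = u h := by
  simp [cutL, hh]

theorem cutL_not {M : Subgroup X} {h : X} (hh : h ∉ M) (u : X → F) : cutL F M u h = 0 := by
  simp [cutL, hh]

theorem cutL_mul {M : Subgroup X} (hYM : Y ≤ M) {z : X → F} (hz : ∀ h, h ∉ Y → z h = 0)
    (c : X → F) : cutL F M (mulF z c) = mulF z (cutL F M c) := by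
  have := Fintype.ofFinite X
  funext x
  unfold mulF
  by_cases hx : x ∈ M
  · rw [cutL_mem hx, finsum_eq_sum_of_fintype, finsum_eq_sum_of_fintype]
    apply Finset.sum_congr rfl
    intro t _
    by_cases ht : t ∈ Y
    · rw [cutL_mem (M.mul_mem (M.inv_mem (hYM ht)) hx)]
    · rw [hz t ht, zero_mul, zero_mul]
  · rw [cutL_not hx, finsum_eq_sum_of_fintype]
    symm
    apply Finset.sum_eq_zero
    intro t _
    by_cases ht : t ∈ Y
    · rw [cutL_not (fun h => hx ?_), mul_zero]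
      have := M.mul_mem (hYM ht) h
      rwa [mul_inv_cancel_left] at this
    · rw [hz t ht, zero_mul]

theorem cutL_cc {M : Subgroup X} (hM : M.Normal) (hYM : Y ≤ M) (hf : SBlk Y f) {c : X → F}
    (hc : CC f Y c) : DE f Y M (cutL F M c) := by
  refine ⟨⟨?_, ?_⟩, fun h hh => cutL_not hh c⟩
  · intro n hn h
    by_cases hh : h ∈ M
    · rw [cutL_mem hh, cutL_mem (hM.conj_mem h hh n), hc.inv n hn]
    · rw [cutL_not hh, cutL_not]
      intro h'
      apply hh
      have := hM.conj_mem _ h' n⁻¹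
      have e : n⁻¹ * (n * h * n⁻¹) * n⁻¹⁻¹ = h := by group
      rwa [e] at this
  · rw [← cutL_mul hYM hf.supp, hc.abs]

theorem cutL_de {M : Subgroup X} {d : X → F} (hd : DE f Y M d) : cutL F M d = d := by
  funext h
  by_cases hh : h ∈ M
  · rw [cutL_mem hh]
  · rw [cutL_not hh, hd.supp h hh]

theorem DE.mul {M : Subgroup X} {a b : X → F} (ha : DE f Y M a) (hb : DE f Y M b) :
    DE f Y M (mulF a b) := by
  refine ⟨ha.cc.mul hb.cc, ?_⟩
  intro h hh
  apply mulF_supp (S := (M : Set X)) (T := (M : Set X)) ha.supp hb.supp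
  rintro s hs t ht rfl
  exact hh (M.mul_mem hs ht)

/-- `C` as a subspace of the group algebra -/
def CA (f : X → F) (Y : Subgroup X) : Submodule F (MonoidAlgebra F X) where
  carrier := {a | ∃ u, CC f Y u ∧ a = ma u}
  zero_mem' := ⟨0, ⟨fun _ _ _ => rfl, by
    apply ma_injective
    rw [ma_mul, ma_zero, mul_zero]⟩, ma_zero.symm⟩
  add_mem' := by
    rintro _ _ ⟨u, hu, rfl⟩ ⟨v, hv, rfl⟩
    refine ⟨u + v, ⟨fun n hn h => ?_, ?_⟩, (ma_add u v).symm⟩
    · rw [Pi.add_apply, Pi.add_apply, hu.inv n hn, hv.inv n hn]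
    · rw [mulF_add', hu.abs, hv.abs]
  smul_mem' := by
    rintro c _ ⟨u, hu, rfl⟩
    refine ⟨c • u, ⟨fun n hn h => ?_, ?_⟩, (ma_smul c u).symm⟩
    · rw [Pi.smul_apply, Pi.smul_apply, hu.inv n hn]
    · rw [mulF_smul', hu.abs]

theorem mem_CA {u : X → F} : ma u ∈ CA f Y ↔ CC f Y u := by
  constructor
  · rintro ⟨v, hv, h⟩
    rw [ma_injective h]
    exact hv
  · intro h
    exact ⟨u, h, rfl⟩

/-- `D` as a subspace of the group algebra -/
def DA (f : X → F) (Y M : Subgroup X) : Submodule F (MonoidAlgebra F X) where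
  carrier := {a | ∃ u, DE f Y M u ∧ a = ma u}
  zero_mem' := ⟨0, ⟨⟨fun _ _ _ => rfl, by
    apply ma_injective
    rw [ma_mul, ma_zero, mul_zero]⟩, fun _ _ => rfl⟩, ma_zero.symm⟩
  add_mem' := by
    rintro _ _ ⟨u, hu, rfl⟩ ⟨v, hv, rfl⟩
    refine ⟨u + v, ⟨mem_CA.1 ?_, fun h hh => ?_⟩, (ma_add u v).symm⟩
    · rw [ma_add]
      exact (CA f Y).add_mem (mem_CA.2 hu.cc) (mem_CA.2 hv.cc)
    · rw [Pi.add_apply, hu.supp h hh, hv.supp h hh, add_zero]
  smul_mem' := by
    rintro c _ ⟨u, hu, rfl⟩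
    refine ⟨c • u, ⟨mem_CA.1 ?_, fun h hh => ?_⟩, (ma_smul c u).symm⟩
    · rw [ma_smul]
      exact (CA f Y).smul_mem _ (mem_CA.2 hu.cc)
    · rw [Pi.smul_apply, hu.supp h hh, smul_zero]

theorem mem_DA {M : Subgroup X} {u : X → F} : ma u ∈ DA f Y M ↔ DE f Y M u := by
  constructor
  · rintro ⟨v, hv, h⟩
    rw [ma_injective h]
    exact hv
  · intro h
    exact ⟨u, h, rfl⟩

/-- the inclusion of `Z` in the group algebra -/
def iz (F : Type) [Field F] (Y : Subgroup X) : ZY F Y →+* MonoidAlgebra F X :=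
  (ZY F Y).subtype

theorem iz_apply (r : ZY F Y) : iz F Y r = (r : MonoidAlgebra F X) := rfl

/-- `J₁ C` in the group algebra -/
theorem mem_J1 (hf : SBlk Y f) {w : X → F} :
    w ∈ J1C f Y ↔ ma w ∈ Jk (iz F Y) (CA f Y) (nilradical (ZY F Y)) 1 := by
  constructor
  · intro h
    induction h using Submodule.span_induction with
    | mem w hw =>
      obtain ⟨z, c, hz, hn, hc, rfl⟩ := hw
      rw [ma_mul]
      have := mem_Jk (ι := iz F Y) (C := CA f Y) (N := nilradical (ZY F Y)) (k := 1)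
        (r := zy hz) (c := ma c) (by
          rw [pow_one, mem_nilradical, nil_zy]
          exact (nil_iff z).1 hn) (mem_CA.2 hc)
      exact this
    | zero => rw [ma_zero]; exact Submodule.zero_mem _
    | add x y _ _ hx hy => rw [ma_add]; exact Submodule.add_mem _ hx hy
    | smul t x _ hx => rw [ma_smul]; exact Submodule.smul_mem _ _ hx
  · intro h
    have key : ∀ a ∈ Jk (iz F Y) (CA f Y) (nilradical (ZY F Y)) 1,
        ∃ w ∈ J1C f Y, ma w = a := by
      intro a ha
      induction ha using Submodule.span_induction with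
      | mem a ha =>
        obtain ⟨⟨r, hr⟩, hrn, c, ⟨v, hv, rfl⟩, rfl⟩ := ha
        obtain ⟨u, rfl⟩ := ma_surjective r
        rw [pow_one, mem_nilradical, nil_zy] at hrn
        change IsNilpotent (ma u) at hrn
        have hu := (mem_ZY u).1 hr
        have hcomm : mulF u f = mulF f u := (f_comm hf u).symm
        have hz : CE f Y 1 (mulF u f) := by
          refine ⟨?_, inv_mulF hu.2 (f_CE hf).inv, ?_⟩
          · intro h hh
            apply mulF_suppY hu.1 hf.supp
            simpa using hh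
          · rw [← mulF_assoc, f_comm hf u, mulF_assoc, f_idem hf]
        refine ⟨mulF (mulF u f) v, Submodule.subset_span ⟨mulF u f, v, hz, ?_, hv, rfl⟩, ?_⟩
        · rw [nil_iff, ma_mul]
          have h1 : Commute (ma u) (ma f) := by
            change ma u * ma f = ma f * ma u
            rw [← ma_mul, ← ma_mul, hcomm]
          exact h1.isNilpotent_mul_right hrn
        · rw [mulF_assoc, hv.abs, ma_mul]
          rfl
      | zero => exact ⟨0, Submodule.zero_mem _, ma_zero⟩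
      | add x y _ _ hx hy =>
        obtain ⟨u, hu, rfl⟩ := hx
        obtain ⟨v, hv, rfl⟩ := hy
        exact ⟨u + v, Submodule.add_mem _ hu hv, ma_add u v⟩
      | smul t x _ hx =>
        obtain ⟨u, hu, rfl⟩ := hx
        exact ⟨t • u, Submodule.smul_mem _ _ hu, ma_smul t u⟩
    obtain ⟨w', hw', e⟩ := key _ h
    rw [← ma_injective e]
    exact hw'

theorem cjF_mul (x : X) (a b : X → F) : cjF x (mulF a b) = mulF (cjF x a) (cjF x b) := by
  apply ma_injective
  rw [ma_cjF, ma_mul, ma_mul, ma_cjF, ma_cjF]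
  have := single_inv' (F := F) x
  calc MonoidAlgebra.single x (1 : F) * (ma a * ma b) * MonoidAlgebra.single x⁻¹ 1
      = MonoidAlgebra.single x (1 : F) * ma a *
        (MonoidAlgebra.single x⁻¹ (1 : F) * MonoidAlgebra.single x 1) * ma b *
          MonoidAlgebra.single x⁻¹ 1 := by
        rw [this, mul_one]
        simp only [mul_assoc]
    _ = _ := by simp only [mul_assoc]

theorem cjF_add (x : X) (a b : X → F) : cjF x (a + b) = cjF x a + cjF x b := rfl

theorem cjF_sub (x : X) (a b : X → F) : cjF x (a - b) = cjF x a - cjF x b := rfl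

theorem cjF_smul (x : X) (c : F) (a : X → F) : cjF x (c • a) = c • cjF x a := rfl

theorem cjF_f (hf : SBlk Y f) (x : X) : cjF x f = f := by
  funext h
  change f (x⁻¹ * h * x) = f h
  have := hf.cl h x⁻¹
  rwa [inv_inv] at this

theorem cjF_cc (hY : Y.Normal) (hf : SBlk Y f) (x : X) {c : X → F} (hc : CC f Y c) :
    CC f Y (cjF x c) := by
  refine ⟨?_, ?_⟩
  · intro n hn h
    have h1 : x⁻¹ * n * x⁻¹⁻¹ ∈ Y := hY.conj_mem _ hn x⁻¹
    rw [inv_inv] at h1
    have h2 := hc.inv _ h1 (x⁻¹ * h * x)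
    change c (x⁻¹ * (n * h * n⁻¹) * x) = c (x⁻¹ * h * x)
    rw [← h2]
    congr 1
    group
  · have := cjF_mul x f c
    rw [hc.abs, cjF_f hf] at this
    exact this.symm

theorem cjF_J1 (hY : Y.Normal) (hf : SBlk Y f) (x : X) {w : X → F} (hw : w ∈ J1C f Y) :
    cjF x w ∈ J1C f Y := by
  induction hw using Submodule.span_induction with
  | mem w hw =>
    obtain ⟨z, c, hz, hn, hc, rfl⟩ := hw
    rw [cjF_mul]
    refine Submodule.subset_span ⟨cjF x z, cjF x c, ?_, ?_, cjF_cc hY hf x hc, rfl⟩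
    · have := CE.cjF hY hf hz x
      rwa [mul_one, mul_inv_cancel] at this
    · obtain ⟨n, hn⟩ := hn
      refine ⟨n, ?_⟩
      have h1 : ∀ n, (mulF (cjF x z))^[n] (cjF x z) = cjF x ((mulF z)^[n] z) := by
        intro n
        induction n with
        | zero => rfl
        | succ n ih => rw [Function.iterate_succ_apply', Function.iterate_succ_apply', ih, cjF_mul]
      rw [h1, hn]
      rfl
  | zero => exact Submodule.zero_mem _
  | add x y _ _ hx hy => rw [cjF_add]; exact Submodule.add_mem _ hx hy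
  | smul t x _ hx => rw [cjF_smul]; exact Submodule.smul_mem _ _ hx

/-- `LFT`. -/
theorem lft : LftStmt := by
  intro ℓ F _ hF X _ _ Y hY f hf M hM hYM _ s hs h1 h2 h3
  have hp : Fact ℓ.Prime := ⟨hF.prime⟩
  have hch : CharP F ℓ := hF.char
  have hchA : CharP (MonoidAlgebra F X) ℓ :=
    charP_of_injective_algebraMap (algebraMap F (MonoidAlgebra F X)).injective ℓ
  have : FiniteDimensional F (MonoidAlgebra F X) := Module.Finite.equiv maL
  have : FiniteDimensional F (ZY F Y) := FiniteDimensional.finiteDimensional_subalgebra _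
  have : IsArtinianRing (ZY F Y) := IsArtinianRing.of_finite F _
  obtain ⟨k, hk⟩ := IsArtinianRing.isNilpotent_nilradical (R := ZY F Y)
  rw [Ideal.zero_eq_bot] at hk
  have hC : ∀ a ∈ CA f Y, ∀ b ∈ CA f Y, a * b ∈ CA f Y := by
    rintro _ ⟨u, hu, rfl⟩ _ ⟨v, hv, rfl⟩
    exact ⟨mulF u v, hu.mul hv, (ma_mul u v).symm⟩
  have hcomm : ∀ r, ∀ c ∈ CA f Y, iz F Y r * c = c * iz F Y r := by
    rintro ⟨r, hr⟩ _ ⟨v, hv, rfl⟩
    obtain ⟨u, rfl⟩ := ma_surjective r
    have hu := (mem_ZY u).1 hr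
    change ma u * ma v = ma v * ma u
    rw [← ma_mul, ← ma_mul, comm_of_supp hu.1 hv.inv]
  have hDC : DA f Y M ≤ CA f Y := by
    rintro _ ⟨u, hu, rfl⟩
    exact ⟨u, hu.cc, rfl⟩
  have hD : ∀ a ∈ DA f Y M, ∀ b ∈ DA f Y M, a * b ∈ DA f Y M := by
    rintro _ ⟨u, hu, rfl⟩ _ ⟨v, hv, rfl⟩
    exact ⟨mulF u v, DE.mul hu hv, (ma_mul u v).symm⟩
  let P : MonoidAlgebra F X →ₗ[F] MonoidAlgebra F X :=
    (maL.toLinearMap.comp (cutL F M)).comp maL.symm.toLinearMap
  have hPma : ∀ u : X → F, P (ma u) = ma (cutL F M u) := fun u => rfl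
  obtain ⟨n, e1, e2, e3, e4⟩ := lift_abs (ℓ := ℓ) hC hcomm hk hDC hD P (by
      rintro ⟨r, hr⟩ _ ⟨v, hv, rfl⟩
      obtain ⟨u, rfl⟩ := ma_surjective r
      have hu := (mem_ZY u).1 hr
      change P (ma u * ma v) = ma u * P (ma v)
      rw [← ma_mul, hPma, hPma, cutL_mul hYM hu.1, ma_mul]) (by
      rintro _ ⟨v, hv, rfl⟩
      rw [hPma]
      exact ⟨_, cutL_cc hM hYM hf hv, rfl⟩) (by
      rintro _ ⟨v, hv, rfl⟩
      rw [hPma, cutL_de hv]) (s := ma s) (mem_DA.2 hs) (by
      rw [← ma_mul, ← ma_sub]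
      exact (mem_J1 hf).1 h1) (by
      rintro _ ⟨v, hv, rfl⟩
      rw [← ma_mul, ← ma_mul, ← ma_sub]
      exact (mem_J1 hf).1 (h2 v hv))
  obtain ⟨E, hE, hEe⟩ := e2
  rw [hEe] at e1 e3 e4
  have hEE : mulF E E = E := by
    apply ma_injective
    rw [ma_mul, e1]
  have hEJ : E - s ∈ J1C f Y := by
    rw [mem_J1 hf, ma_sub]
    exact e3
  have hcj : ∀ x, cjF x E = E := by
    intro x
    apply ma_injective
    have hE' : DE f Y M (cjF x E) := by
      refine ⟨cjF_cc hY hf x hE.cc, fun h hh => hE.supp _ fun h' => hh ?_⟩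
      have := hM.conj_mem _ h' x
      have e : x * (x⁻¹ * h * x) * x⁻¹ = h := by group
      rwa [e] at this
    refine idem_eq (ℓ := ℓ) hC hcomm hk ?_ ?_ e1 ?_
    · exact (e4 _ (mem_DA.2 hE')).symm
    · rw [← ma_mul, ← cjF_mul, hEE]
    · rw [← ma_sub, ← mem_J1 hf]
      have e : cjF x E - E = cjF x (E - s) + (cjF x s - s) - (E - s) := by
        rw [cjF_sub]
        abel
      rw [e]
      exact Submodule.sub_mem _ (Submodule.add_mem _ (cjF_J1 hY hf x hEJ) (h3 x)) hEJ
  refine ⟨E, ⟨?_, hEE⟩, hE.supp, ?_, hEJ⟩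
  · intro h x
    have := congrFun (hcj x⁻¹) h
    change E (x⁻¹⁻¹ * h * x⁻¹) = E h at this
    rwa [inv_inv] at this
  · rw [← f_comm hf, hE.cc.abs]

end Pool.Agent.PP.H76
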