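import Mathlib

/-!
# Squad PP, part J: lifting of idempotents in an algebra which is central modulo a nilpotent ideal
-/

set_option autoImplicit false

namespace Pool.Agent.PP.H76

section abs

variable {F A R : Type} [Field F] [Ring A] [Algebra F A] [CommRing R] (ι : R →+* A)
  (C : Submodule F A) (N : Ideal R)

/-- the span of the products `r c` with `r` in the `k`-th power of `N` -/
def Jk (k : ℕ) : Submodule F A := Submodule.span F {a | ∃ r ∈ N ^ k, ∃ c ∈ C, a = ι r * c}

variable {ι C N}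

theorem mem_Jk {k : ℕ} {r : R} (hr : r ∈ N ^ k) {c : A} (hc : c ∈ C) : ι r * c ∈ Jk ι C N k :=
  Submodule.subset_span ⟨r, hr, c, hc, rfl⟩

theorem Jk_bot {k : ℕ} (hN : N ^ k = ⊥) : Jk ι C N k = ⊥ := by
  rw [eq_bot_iff, Jk, Submodule.span_le]
  rintro a ⟨r, hr, c, -, rfl⟩
  rw [hN, Ideal.mem_bot] at hr
  rw [hr, map_zero, zero_mul]
  exact Submodule.zero_mem _

theorem Jk_anti {k l : ℕ} (h : k ≤ l) : Jk ι C N l ≤ Jk ι C N k := by
  rw [Jk, Submodule.span_le]
  rintro a ⟨r, hr, c, hc, rfl⟩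
  exact mem_Jk (Ideal.pow_le_pow_right h hr) hc

theorem le_Jk0 : C ≤ Jk ι C N 0 := by
  intro c hc
  have := mem_Jk (ι := ι) (N := N) (k := 0) (r := 1) (by simp) hc
  rwa [map_one, one_mul] at this

variable (hC : ∀ a ∈ C, ∀ b ∈ C, a * b ∈ C) (hcomm : ∀ r, ∀ c ∈ C, ι r * c = c * ι r)

include hC hcomm in
theorem Jk_mul {j k : ℕ} {a b : A} (ha : a ∈ Jk ι C N j) (hb : b ∈ Jk ι C N k) :
    a * b ∈ Jk ι C N (j + k) := by
  induction ha using Submodule.span_induction with
  | mem a ha =>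
    obtain ⟨r, hr, c, hc, rfl⟩ := ha
    induction hb using Submodule.span_induction with
    | mem b hb =>
      obtain ⟨r', hr', c', hc', rfl⟩ := hb
      have e : ι r * c * (ι r' * c') = ι (r * r') * (c * c') := by
        rw [map_mul, mul_assoc, ← mul_assoc c, ← hcomm r' c hc, mul_assoc (ι r'), ← mul_assoc]
      rw [e]
      refine mem_Jk ?_ (hC _ hc _ hc')
      rw [pow_add]
      exact Ideal.mul_mem_mul hr hr'
    | zero => rw [mul_zero]; exact Submodule.zero_mem _
    | add x y _ _ hx hy => rw [mul_add]; exact Submodule.add_mem _ hx hy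
    | smul t x _ hx => rw [mul_smul_comm]; exact Submodule.smul_mem _ _ hx
  | zero => rw [zero_mul]; exact Submodule.zero_mem _
  | add x y _ _ hx hy => rw [add_mul]; exact Submodule.add_mem _ hx hy
  | smul t x _ hx => rw [smul_mul_assoc]; exact Submodule.smul_mem _ _ hx

include hC hcomm in
theorem Jk_pow {a : A} (ha : a ∈ Jk ι C N 1) (k : ℕ) : a ^ (k + 1) ∈ Jk ι C N (k + 1) := by
  induction k with
  | zero => rw [zero_add, pow_one]; exact ha
  | succ k ih =>
    rw [pow_succ]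
    exact Jk_mul hC hcomm ih ha

include hC hcomm in
theorem C_mul_Jk {k : ℕ} {c a : A} (hc : c ∈ C) (ha : a ∈ Jk ι C N k) : c * a ∈ Jk ι C N k := by
  have := Jk_mul hC hcomm (le_Jk0 hc) ha
  rwa [zero_add] at this

include hC hcomm in
theorem Jk_mul_C {k : ℕ} {c a : A} (hc : c ∈ C) (ha : a ∈ Jk ι C N k) : a * c ∈ Jk ι C N k := by
  have := Jk_mul hC hcomm ha (le_Jk0 hc)
  rwa [add_zero] at this

include hC hcomm in
theorem Jk_mul_pow {k : ℕ} {s a : A} (hs : s ∈ C) (ha : a ∈ Jk ι C N k) (j : ℕ) :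
    a * s ^ j ∈ Jk ι C N k := by
  induction j with
  | zero => rwa [pow_zero, mul_one]
  | succ j ih =>
    rw [pow_succ, ← mul_assoc]
    exact Jk_mul_C hC hcomm hs ih

include hC hcomm in
theorem comm_pow {s d : A} (hs : s ∈ C) (h : s * d - d * s ∈ Jk ι C N 1) (j : ℕ) :
    s ^ j * d - d * s ^ j ∈ Jk ι C N 1 := by
  induction j with
  | zero => rw [pow_zero, one_mul, mul_one, sub_self]; exact Submodule.zero_mem _
  | succ j ih =>
    have e : s ^ (j + 1) * d - d * s ^ (j + 1) =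
        s * (s ^ j * d - d * s ^ j) + (s * d - d * s) * s ^ j := by
      rw [pow_succ']
      noncomm_ring
    rw [e]
    exact Submodule.add_mem _ (C_mul_Jk hC hcomm hs ih) (Jk_mul_pow hC hcomm hs h j)

include hC hcomm in
theorem pow_sub {s : A} (hs : s ∈ C) (h : s * s - s ∈ Jk ι C N 1) (j : ℕ) :
    s ^ (j + 1) - s ∈ Jk ι C N 1 := by
  induction j with
  | zero => rw [zero_add, pow_one, sub_self]; exact Submodule.zero_mem _
  | succ j ih =>
    have e : s ^ (j + 1 + 1) - s = (s ^ (j + 1) - s) * s + (s * s - s) := by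
      rw [pow_succ _ (j + 1)]
      noncomm_ring
    rw [e]
    exact Submodule.add_mem _ (Jk_mul_C hC hcomm hs ih) h

theorem pow_mem {D : Submodule F A} (hD : ∀ a ∈ D, ∀ b ∈ D, a * b ∈ D) {s : A} (hs : s ∈ D)
    (j : ℕ) : s ^ (j + 1) ∈ D := by
  induction j with
  | zero => rwa [zero_add, pow_one]
  | succ j ih => rw [pow_succ]; exact hD _ ih _ hs

include hC hcomm in
/-- one half of the centrality -/
theorem cent_half {D : Submodule F A} (hDC : D ≤ C) (hD : ∀ a ∈ D, ∀ b ∈ D, a * b ∈ D)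
    (P : A →ₗ[F] A) (hP : ∀ r, ∀ c ∈ C, P (ι r * c) = ι r * P c) (hPC : ∀ c ∈ C, P c ∈ D)
    (hPD : ∀ d ∈ D, P d = d) {E : A} (hE : E ∈ D) (hEE : E * E = E)
    (hc : ∀ d ∈ D, E * d - d * E ∈ Jk ι C N 1) (k : ℕ) :
    (∀ d ∈ D, E * d - E * d * E ∈ Jk ι C N k) ∧ ∀ d ∈ D, d * E - E * d * E ∈ Jk ι C N k := by
  have hEC : E ∈ C := hDC hE
  have key : ∀ (k : ℕ) (T : A →ₗ[F] A), (∀ r, ∀ c ∈ C, T (ι r * c) = ι r * T c) →
      (∀ d ∈ D, T d ∈ Jk ι C N k) → ∀ w ∈ Jk ι C N 1, T (P w) ∈ Jk ι C N (k + 1) := by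
    intro k T hT1 hT2 w hw
    induction hw using Submodule.span_induction with
    | mem w hw =>
      obtain ⟨r, hr, c, hc, rfl⟩ := hw
      rw [hP r c hc, hT1 r _ (hDC (hPC c hc))]
      have h1 := hT2 _ (hPC c hc)
      rw [pow_one] at hr
      have : ∀ x ∈ Jk ι C N k, ι r * x ∈ Jk ι C N (k + 1) := by
        intro x hx
        induction hx using Submodule.span_induction with
        | mem x hx =>
          obtain ⟨r', hr', c', hc', rfl⟩ := hx
          rw [← mul_assoc, ← map_mul]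
          refine mem_Jk ?_ hc'
          rw [pow_succ']
          exact Ideal.mul_mem_mul hr hr'
        | zero => rw [mul_zero]; exact Submodule.zero_mem _
        | add x y _ _ hx hy => rw [mul_add]; exact Submodule.add_mem _ hx hy
        | smul t x _ hx => rw [mul_smul_comm]; exact Submodule.smul_mem _ _ hx
      exact this _ h1
    | zero => rw [map_zero, map_zero]; exact Submodule.zero_mem _
    | add x y _ _ hx hy => rw [map_add, map_add]; exact Submodule.add_mem _ hx hy
    | smul t x _ hx => rw [map_smul, map_smul]; exact Submodule.smul_mem _ _ hx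
  induction k with
  | zero =>
    refine ⟨fun d hd => le_Jk0 ?_, fun d hd => le_Jk0 ?_⟩
    · exact C.sub_mem (hDC (hD _ hE _ hd)) (hDC (hD _ (hD _ hE _ hd) _ hE))
    · exact C.sub_mem (hDC (hD _ hd _ hE)) (hDC (hD _ (hD _ hE _ hd) _ hE))
  | succ k ih =>
    constructor
    · intro d hd
      have hu : E * d - E * d * E ∈ D := D.sub_mem (hD _ hE _ hd) (hD _ (hD _ hE _ hd) _ hE)
      have hu1 : E * d - E * d * E ∈ Jk ι C N 1 := by
        have e : E * d - E * d * E = E * (E * d - d * E) := by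
          rw [mul_sub, ← mul_assoc, hEE, mul_assoc]
        rw [e]
        exact C_mul_Jk hC hcomm hEC (hc d hd)
      let T : A →ₗ[F] A := LinearMap.mulLeft F E -
        (LinearMap.mulLeft F E).comp (LinearMap.mulRight F E)
      have hT : ∀ x, T x = E * x - E * x * E := by
        intro x
        simp only [T, LinearMap.sub_apply, LinearMap.comp_apply, LinearMap.mulLeft_apply,
          LinearMap.mulRight_apply, mul_assoc]
      have h1 := key k T (by
        intro r c hc'
        rw [hT, hT, mul_sub, ← mul_assoc, ← hcomm r E hEC, mul_assoc, mul_assoc, mul_assoc])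
        (by
          intro x hx
          rw [hT]
          exact ih.1 x hx) _ hu1
      rw [hPD _ hu, hT] at h1
      have e : E * (E * d - E * d * E) - E * (E * d - E * d * E) * E = E * d - E * d * E := by
        have e1 : E * (E * d - E * d * E) = E * d - E * d * E := by
          rw [mul_sub, ← mul_assoc, ← mul_assoc, ← mul_assoc, hEE]
        rw [e1, sub_mul, mul_assoc (E * d) E E, hEE, sub_self, sub_zero]
      rwa [e] at h1
    · intro d hd
      have hu : d * E - E * d * E ∈ D := D.sub_mem (hD _ hd _ hE) (hD _ (hD _ hE _ hd) _ hE)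
      have hu1 : d * E - E * d * E ∈ Jk ι C N 1 := by
        have e : d * E - E * d * E = -((E * d - d * E) * E) := by
          rw [sub_mul, mul_assoc d E E, hEE]
          abel
        rw [e]
        exact Submodule.neg_mem _ (Jk_mul_C hC hcomm hEC (hc d hd))
      let T : A →ₗ[F] A := LinearMap.mulRight F E -
        (LinearMap.mulLeft F E).comp (LinearMap.mulRight F E)
      have hT : ∀ x, T x = x * E - E * x * E := by
        intro x
        simp only [T, LinearMap.sub_apply, LinearMap.comp_apply, LinearMap.mulLeft_apply,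
          LinearMap.mulRight_apply, mul_assoc]
      have h1 := key k T (by
        intro r c hc'
        rw [hT, hT, mul_sub, ← mul_assoc, ← mul_assoc, ← hcomm r E hEC, mul_assoc (ι r), mul_assoc,
          mul_assoc, mul_assoc])
        (by
          intro x hx
          rw [hT]
          exact ih.2 x hx) _ hu1
      rw [hPD _ hu, hT] at h1
      have e : (d * E - E * d * E) * E - E * (d * E - E * d * E) * E = d * E - E * d * E := by
        have e1 : (d * E - E * d * E) * E = d * E - E * d * E := by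
          rw [sub_mul, mul_assoc d E E, mul_assoc (E * d) E E, hEE]
        have e2 : E * (d * E - E * d * E) * E = 0 := by
          rw [mul_assoc, e1, mul_sub, ← mul_assoc, ← mul_assoc, ← mul_assoc, hEE, sub_self]
        rw [e1, e2, sub_zero]
      rwa [e] at h1

include hC hcomm in
/-- Commuting idempotents which are congruent modulo the nilpotent ideal are equal. -/
theorem idem_eq {ℓ : ℕ} [Fact ℓ.Prime] [CharP A ℓ] {k : ℕ} (hN : N ^ k = ⊥) {a b : A}
    (hab : Commute a b) (ha : a * a = a) (hb : b * b = b) (h : a - b ∈ Jk ι C N 1) : a = b := by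
  have hpos : 0 < ℓ ^ k := pow_pos (Nat.Prime.pos Fact.out) k
  obtain ⟨n, hn⟩ : ∃ n, ℓ ^ k = n + 1 := ⟨ℓ ^ k - 1, by omega⟩
  have hkn : k ≤ n + 1 := by
    rw [← hn]
    exact (Nat.lt_pow_self (Nat.Prime.one_lt Fact.out)).le
  have hNn : N ^ (n + 1) = ⊥ := by
    rw [eq_bot_iff, ← hN]
    exact Ideal.pow_le_pow_right hkn
  have h3 := Jk_pow hC hcomm h n
  rw [Jk_bot hNn, Submodule.mem_bot, ← hn, sub_pow_char_pow_of_commute (p := ℓ) k hab, sub_eq_zero,
    hn, IsIdempotentElem.pow_succ_eq n ha, IsIdempotentElem.pow_succ_eq n hb] at h3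
  exact h3

include hC hcomm in
/-- The lifting. -/
theorem lift_abs {ℓ : ℕ} [Fact ℓ.Prime] [CharP A ℓ] {k : ℕ} (hN : N ^ k = ⊥)
    {D : Submodule F A} (hDC : D ≤ C) (hD : ∀ a ∈ D, ∀ b ∈ D, a * b ∈ D)
    (P : A →ₗ[F] A) (hP : ∀ r, ∀ c ∈ C, P (ι r * c) = ι r * P c) (hPC : ∀ c ∈ C, P c ∈ D)
    (hPD : ∀ d ∈ D, P d = d) {s : A} (hs : s ∈ D) (h1 : s * s - s ∈ Jk ι C N 1)
    (h2 : ∀ d ∈ D, s * d - d * s ∈ Jk ι C N 1) :
    ∃ n : ℕ, s ^ (n + 1) * s ^ (n + 1) = s ^ (n + 1) ∧ s ^ (n + 1) ∈ D ∧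
      s ^ (n + 1) - s ∈ Jk ι C N 1 ∧ ∀ d ∈ D, s ^ (n + 1) * d = d * s ^ (n + 1) := by
  have hpos : 0 < ℓ ^ k := pow_pos (Nat.Prime.pos Fact.out) k
  obtain ⟨n, hn⟩ : ∃ n, ℓ ^ k = n + 1 := ⟨ℓ ^ k - 1, by omega⟩
  have hkn : k ≤ n + 1 := by
    rw [← hn]
    exact (Nat.lt_pow_self (Nat.Prime.one_lt Fact.out)).le
  have hNn : N ^ (n + 1) = ⊥ := by
    rw [eq_bot_iff, ← hN]
    exact Ideal.pow_le_pow_right hkn
  have hEE : s ^ (n + 1) * s ^ (n + 1) = s ^ (n + 1) := by
    have h3 := Jk_pow hC hcomm h1 n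
    rw [Jk_bot hNn, Submodule.mem_bot, ← hn,
      sub_pow_char_pow_of_commute (p := ℓ) k ((Commute.refl s).mul_left (Commute.refl s)), sub_eq_zero,
      (Commute.refl s).mul_pow, hn] at h3
    exact h3
  have hE := pow_mem hD hs n
  refine ⟨n, hEE, hE, pow_sub hC hcomm (hDC hs) h1 n, ?_⟩
  have h4 := cent_half hC hcomm hDC hD P hP hPC hPD hE hEE
    (fun d hd => comm_pow hC hcomm (hDC hs) (h2 d hd) (n + 1)) k
  intro d hd
  have h5 := h4.1 d hd
  have h6 := h4.2 d hd
  rw [Jk_bot hN, Submodule.mem_bot, sub_eq_zero] at h5 h6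
  rw [h5, h6]

end abs

end Pool.Agent.PP.H76
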